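import Pool.Agent.W_MP_a3c811_h79.MF.StReal

/-! Tensor products of realisations of motives: definitions. -/

noncomputable section

namespace Pool.Agent.H62S

open TensorProduct Polynomial Pool.Agent.WeilH_h6 Pool.Agent.WeilH_h6.VarClass Pool.Agent.H62A

universe u v w

/-- A system: for every `l` a space `V l` with a Frobenius `φ l`, a monodromy operator `ν l` and a
subspace `U l`. -/
structure Sys {I : Type} (K : I → Type v) [∀ l, Field (K l)] where
  /-- the space -/
  V : I → Type w
  [acg : ∀ l, AddCommGroup (V l)]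
  [mod : ∀ l, Module (K l) (V l)]
  [finite : ∀ l, FiniteDimensional (K l) (V l)]
  /-- Frobenius -/
  φ : ∀ l, V l →ₗ[K l] V l
  /-- the monodromy operator -/
  ν : ∀ l, V l →ₗ[K l] V l
  /-- the subspace -/
  U : ∀ l, Submodule (K l) (V l)

attribute [instance] Sys.acg Sys.mod Sys.finite

namespace Sys

variable {I : Type} {K : I → Type v} [∀ l, Field (K l)]

section maps

variable {F : Type v} [Field F] {V V' : Type w} [AddCommGroup V] [Module F V] [AddCommGroup V']
  [Module F V']

/-- The endomorphism `f ⊗ f'`. -/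
def tmap (f : V →ₗ[F] V) (f' : V' →ₗ[F] V') : V ⊗[F] V' →ₗ[F] V ⊗[F] V' :=
  TensorProduct.map f f'

/-- The endomorphism `f ⊗ 1 + 1 ⊗ f'`. -/
def tder (f : V →ₗ[F] V) (f' : V' →ₗ[F] V') : V ⊗[F] V' →ₗ[F] V ⊗[F] V' :=
  tmap f LinearMap.id + tmap LinearMap.id f'

/-- The subspace `U ⊗ U'`. -/
def tsub (U : Submodule F V) (U' : Submodule F V') : Submodule F (V ⊗[F] V') :=
  LinearMap.range (TensorProduct.map U.subtype U'.subtype)

end maps

/-- The tensor product `U ⊗ U'` in `V ⊗ V'`, with the Frobenius `φ ⊗ φ'` and the monodromy operator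
`ν ⊗ 1 + 1 ⊗ ν'`. -/
def tensor (S T : Sys.{v, w} K) : Sys.{v, w} K where
  V l := S.V l ⊗[K l] T.V l
  φ l := tmap (S.φ l) (T.φ l)
  ν l := tder (S.ν l) (T.ν l)
  U l := tsub (S.U l) (T.U l)

/-- The tensor products of finitely many systems in the class `P`. -/
inductive Tens (P : Sys.{v, w} K → Prop) : Sys.{v, w} K → Prop
  | of (S : Sys.{v, w} K) (h : P S) : Tens P S
  | tensor (S T : Sys.{v, w} K) (hS : Tens P S) (hT : Tens P T) : Tens P (S.tensor T)

/-- The characteristic polynomials of Frobenius on the subspace `U` and on the kernel of the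
monodromy operator on `U` are rational and do not depend on `l`. -/
def Independent [∀ l, CharZero (K l)] (S : Sys.{v, w} K) : Prop :=
  ∃ A B : ℚ[X], ∀ l, CharpolyOn (S.φ l) (S.U l) A ∧ CharpolyOn (S.φ l) (kerIn (S.ν l) (S.U l)) B

end Sys

variable {k : Type u} [Field k] {𝒱 : VarClass k} {I : Type} {K : I → Type v} [∀ l, Field (K l)]
  {W : ∀ l, Weil.{u, v, w} 𝒱 (K l)}

/-- The system of the realisations `V^w` of a motive computed by the `E_1`-term. -/
def Strata.Motive.sys {X : Strata W} (M : X.Motive) (w : ℤ) : Sys.{v, w} K where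
  V := M.V
  φ := M.φ
  ν := M.ν
  U l := M.deg l w

end Pool.Agent.H62S
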