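import Pool.Agent.W_a3c811_h62.LA.CP

/-! The tensor product of two trace systems. -/

noncomputable section

namespace Pool.Agent.H62A

open Module TensorProduct

universe uA uB uI v w

namespace TS

variable {A : Type uA} [Ring A] [Algebra ℚ A] {B : Type uB} [Ring B] [Algebra ℚ B] {I : Type uI}
  {K : I → Type v} [∀ l, Field (K l)] [∀ l, CharZero (K l)] {E F : I → Type w}
  [∀ l, AddCommGroup (E l)] [∀ l, Module (K l) (E l)] [∀ l, AddCommGroup (F l)]
  [∀ l, Module (K l) (F l)] [∀ l, FiniteDimensional (K l) (E l)]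
  [∀ l, FiniteDimensional (K l) (F l)]

/-- a `ℚ`-algebra structure on endomorphisms -/
abbrev ratEnd (K : Type v) [Field K] [CharZero K] (E : Type w) [AddCommGroup E] [Module K E] :
    Algebra ℚ (Module.End K E) :=
  RingHom.toAlgebra' ((algebraMap K (Module.End K E)).comp (algebraMap ℚ K)) fun c x =>
    Algebra.commutes (R := K) (A := Module.End K E) (algebraMap ℚ K c) x

/-- The action of the tensor product of the algebras on the tensor product of the spaces. -/
def tρ (T : TS A K E) (S : TS B K F) (l : I) :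
    A ⊗[ℚ] B →+* Module.End (K l) (E l ⊗[K l] F l) :=
  letI := ratEnd (K l) (E l ⊗[K l] F l)
  (Algebra.TensorProduct.lift
    (((Module.End.rTensorAlgHom (K l) (E l) (F l)).toRingHom.comp (T.ρ l)).toRatAlgHom)
    (((Module.End.lTensorAlgHom (K l) (F l) (E l)).toRingHom.comp (S.ρ l)).toRatAlgHom)
    (fun a b => by
      refine TensorProduct.ext' fun x y => ?_
      rfl)).toRingHom

omit [∀ l, FiniteDimensional (K l) (E l)] [∀ l, FiniteDimensional (K l) (F l)] in
theorem tρ_tmul (T : TS A K E) (S : TS B K F) (l : I) (a : A) (b : B) :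
    tρ T S l (a ⊗ₜ b) = TensorProduct.map (T.ρ l a) (S.ρ l b) := by
  letI := ratEnd (K l) (E l ⊗[K l] F l)
  have h : tρ T S l (a ⊗ₜ b) = (LinearMap.rTensor (F l) (T.ρ l a) :
      Module.End (K l) (E l ⊗[K l] F l)) * LinearMap.lTensor (E l) (S.ρ l b) :=
    Algebra.TensorProduct.lift_tmul _ _ _ a b
  rw [h]
  refine TensorProduct.ext' fun x y => ?_
  rfl

/-- The tensor product of two trace systems. -/
def tensor (T : TS A K E) (S : TS B K F) : TS (A ⊗[ℚ] B) K (fun l => E l ⊗[K l] F l) where
  ρ l := tρ T S l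
  t := (LinearMap.mul' ℚ ℚ) ∘ₗ (TensorProduct.map T.t S.t)
  tr l x := by
    induction x using TensorProduct.induction_on with
    | zero => simp
    | tmul a b =>
      rw [tρ_tmul, LinearMap.trace_tensorProduct', T.tr, S.tr]
      simp
    | add x y hx hy =>
      rw [map_add, map_add, hx, hy, map_add, Rat.cast_add]

theorem tensor_tmul (T : TS A K E) (S : TS B K F) (l : I) (a : A) (b : B) :
    (T.tensor S).ρ l (a ⊗ₜ b) = TensorProduct.map (T.ρ l a) (S.ρ l b) := tρ_tmul T S l a b

end TS

end Pool.Agent.H62A
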