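import Pool.Agent.W_MP_a3c811_h79.Lap.Quasi
import Pool.Agent.W_a3c811_h30x.TsT
import Pool.Agent.W_a3c811_h61.SlT30
import Pool.Agent.W_a3c811_h30x.Defs

/-! Systems with a trace system which contains Frobenius, the `sl2`-triple and the projector. -/

noncomputable section

namespace Pool.Agent.H62S

open Module TensorProduct Polynomial Pool.Agent.WeilH_h6 Pool.Agent.WeilH_h6.VarClass
  Pool.Agent.H62A Pool.Agent.H79L

universe uA u v w

section gen

variable {A : Type uA} [Ring A] [Algebra ℚ A] {I : Type} {K : I → Type v}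
    [∀ l, Field (K l)] [∀ l, CharZero (K l)] {V : I → Type w} [∀ l, AddCommGroup (V l)]
    [∀ l, Module (K l) (V l)] [∀ l, FiniteDimensional (K l) (V l)]

/-- The characteristic polynomial of `f` on `range g ∩ ker n` if `n` has a joint quasi-inverse. -/
theorem charpoly_kerT (T : TS A K V) (f n g h : A) (q : ℚ)
    (gg : ∀ l, T.ρ l g * T.ρ l g = T.ρ l g)
    (fg : ∀ l, T.ρ l f * T.ρ l g = T.ρ l g * T.ρ l f)
    (ng : ∀ l, T.ρ l n * T.ρ l g = T.ρ l g * T.ρ l n)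
    (nf : ∀ l, T.ρ l n * T.ρ l f = (q : K l) • (T.ρ l f * T.ρ l n))
    (hh : ∀ l, T.ρ l n * T.ρ l h * T.ρ l n = T.ρ l n) :
    ∃ P : ℚ[X], ∀ l, CharpolyOn (T.ρ l f)
      (LinearMap.range (T.ρ l g) ⊓ LinearMap.ker (T.ρ l n)) P := by
  have hng : ∀ l x, T.ρ l n (T.ρ l g x) = T.ρ l g (T.ρ l n x) := by
    intro l x
    rw [← Module.End.mul_apply, ng, Module.End.mul_apply]
  have hgg : ∀ l x, T.ρ l g (T.ρ l g x) = T.ρ l g x := by
    intro l x
    rw [← Module.End.mul_apply, gg]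
  have hy : ∀ l x, T.ρ l n (T.ρ l h (T.ρ l n x)) = T.ρ l n x := by
    intro l x
    have h1 := LinearMap.congr_fun (hh l) x
    simpa only [Module.End.mul_apply] using h1
  have hp : ∀ l x, T.ρ l (g * (1 - h * (n * g))) x =
      T.ρ l g (x - T.ρ l h (T.ρ l n (T.ρ l g x))) := by
    intro l x
    simp only [map_mul, map_sub, map_one, Module.End.mul_apply, LinearMap.sub_apply,
      Module.End.one_apply]
  have h1 : ∀ l x, T.ρ l (g * (1 - h * (n * g))) x ∈
      LinearMap.range (T.ρ l g) ⊓ LinearMap.ker (T.ρ l n) := by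
    intro l x
    rw [hp]
    refine ⟨⟨_, rfl⟩, LinearMap.mem_ker.2 ?_⟩
    rw [map_sub, map_sub, hng l (T.ρ l h _), hy, hng, hgg, sub_self]
  have h2 : ∀ l x, x ∈ LinearMap.range (T.ρ l g) ⊓ LinearMap.ker (T.ρ l n) →
      T.ρ l (g * (1 - h * (n * g))) x = x := by
    rintro l x ⟨⟨y, rfl⟩, hx⟩
    have hx' : T.ρ l n (T.ρ l g y) = 0 := LinearMap.mem_ker.1 hx
    rw [hp, hgg, hx', map_zero, sub_zero, hgg]
  have hr : ∀ l, LinearMap.range (T.ρ l (g * (1 - h * (n * g)))) =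
      LinearMap.range (T.ρ l g) ⊓ LinearMap.ker (T.ρ l n) := by
    intro l
    refine le_antisymm ?_ ?_
    · rintro _ ⟨x, rfl⟩
      exact h1 l x
    · intro x hx
      exact ⟨x, h2 l x hx⟩
  obtain ⟨P, hP⟩ := T.charpoly_range f (g * (1 - h * (n * g))) (by
    intro l
    ext x
    rw [Module.End.mul_apply]
    exact h2 l _ (h1 l x)) (by
    intro l x hx
    rw [hr] at hx ⊢
    obtain ⟨⟨y, rfl⟩, hx2⟩ := hx
    refine ⟨⟨T.ρ l f y, ?_⟩, LinearMap.mem_ker.2 ?_⟩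
    · rw [← Module.End.mul_apply, ← fg, Module.End.mul_apply]
    · have hx' : T.ρ l n (T.ρ l g y) = 0 := LinearMap.mem_ker.1 hx2
      rw [← Module.End.mul_apply, nf, LinearMap.smul_apply,
        Module.End.mul_apply, hx', map_zero, smul_zero])
  refine ⟨P, fun l => ?_⟩
  rw [← hr l]
  exact hP l

end gen

section tens

variable {A B : Type uA} [Ring A] [Algebra ℚ A] [Ring B] [Algebra ℚ B] {I : Type} {K : I → Type v}
    [∀ l, Field (K l)] [∀ l, CharZero (K l)] {V V' : I → Type w} [∀ l, AddCommGroup (V l)]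
    [∀ l, Module (K l) (V l)] [∀ l, FiniteDimensional (K l) (V l)] [∀ l, AddCommGroup (V' l)]
    [∀ l, Module (K l) (V' l)] [∀ l, FiniteDimensional (K l) (V' l)]
    (T : TS A K V) (T' : TS B K V')

theorem tens_sum (l : I) (n : A) (n' : B) : (T.tensor T').ρ l (n ⊗ₜ 1 + 1 ⊗ₜ n') =
    TensorProduct.map (T.ρ l n) (1 : Module.End (K l) (V' l)) +
      TensorProduct.map (1 : Module.End (K l) (V l)) (T'.ρ l n') := by
  rw [map_add, TS.tensor_tmul, TS.tensor_tmul, map_one, map_one]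

theorem tens_gg (l : I) {g : A} {g' : B} (h : T.ρ l g * T.ρ l g = T.ρ l g)
    (h' : T'.ρ l g' * T'.ρ l g' = T'.ρ l g') :
    (T.tensor T').ρ l (g ⊗ₜ g') * (T.tensor T').ρ l (g ⊗ₜ g') = (T.tensor T').ρ l (g ⊗ₜ g') := by
  rw [TS.tensor_tmul, ← TensorProduct.map_mul, h, h']

theorem tens_fg (l : I) {f g : A} {f' g' : B} (h : T.ρ l f * T.ρ l g = T.ρ l g * T.ρ l f)
    (h' : T'.ρ l f' * T'.ρ l g' = T'.ρ l g' * T'.ρ l f') :
    (T.tensor T').ρ l (f ⊗ₜ f') * (T.tensor T').ρ l (g ⊗ₜ g') =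
      (T.tensor T').ρ l (g ⊗ₜ g') * (T.tensor T').ρ l (f ⊗ₜ f') := by
  rw [TS.tensor_tmul, TS.tensor_tmul, ← TensorProduct.map_mul, ← TensorProduct.map_mul, h, h']

theorem tens_ng (l : I) {n g : A} {n' g' : B} (h : T.ρ l n * T.ρ l g = T.ρ l g * T.ρ l n)
    (h' : T'.ρ l n' * T'.ρ l g' = T'.ρ l g' * T'.ρ l n') :
    (T.tensor T').ρ l (n ⊗ₜ 1 + 1 ⊗ₜ n') * (T.tensor T').ρ l (g ⊗ₜ g') =
      (T.tensor T').ρ l (g ⊗ₜ g') * (T.tensor T').ρ l (n ⊗ₜ 1 + 1 ⊗ₜ n') := by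
  rw [tens_sum, TS.tensor_tmul, add_mul, mul_add, ← TensorProduct.map_mul,
    ← TensorProduct.map_mul, ← TensorProduct.map_mul, ← TensorProduct.map_mul, h, h', one_mul,
    one_mul, mul_one, mul_one]

theorem tens_nf (l : I) {n f : A} {n' f' : B} {q : K l}
    (h : T.ρ l n * T.ρ l f = q • (T.ρ l f * T.ρ l n))
    (h' : T'.ρ l n' * T'.ρ l f' = q • (T'.ρ l f' * T'.ρ l n')) :
    (T.tensor T').ρ l (n ⊗ₜ 1 + 1 ⊗ₜ n') * (T.tensor T').ρ l (f ⊗ₜ f') =
      q • ((T.tensor T').ρ l (f ⊗ₜ f') * (T.tensor T').ρ l (n ⊗ₜ 1 + 1 ⊗ₜ n')) := by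
  rw [tens_sum, TS.tensor_tmul, add_mul, mul_add, ← TensorProduct.map_mul,
    ← TensorProduct.map_mul, ← TensorProduct.map_mul, ← TensorProduct.map_mul, h, h', one_mul,
    one_mul, mul_one, mul_one, TensorProduct.map_smul_left, TensorProduct.map_smul_right, smul_add]

end tens

variable {I : Type} {K : I → Type v} [∀ l, Field (K l)] [∀ l, CharZero (K l)]

/-- A trace system which contains Frobenius, the `sl2`-triple and the projector. -/
structure Nice (S : Sys.{v, w} K) (q : ℚ) where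
  A : Type uA
  [ring : Ring A]
  [alg : Algebra ℚ A]
  T : TS A K S.V
  f : A
  n : A
  y : A
  g : A
  s : ∀ l, ℤ → Module.End (K l) (S.V l)
  P : Finset ℤ
  hf : ∀ l, T.ρ l f = S.φ l
  hn : ∀ l, T.ρ l n = S.ν l
  sl : ∀ l, Sl (T.ρ l n) (T.ρ l y) (s l) P
  gg : ∀ l, T.ρ l g * T.ρ l g = T.ρ l g
  rg : ∀ l, LinearMap.range (T.ρ l g) = S.U l
  fg : ∀ l, T.ρ l f * T.ρ l g = T.ρ l g * T.ρ l f
  ng : ∀ l, T.ρ l n * T.ρ l g = T.ρ l g * T.ρ l n
  nf : ∀ l, T.ρ l n * T.ρ l f = (q : K l) • (T.ρ l f * T.ρ l n)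

attribute [instance] Nice.ring Nice.alg

namespace Nice

theorem indep [Nonempty I] {S : Sys.{v, w} K} {q : ℚ} (h : Nice.{uA} S q) : S.Independent := by
  obtain ⟨A, hA⟩ := h.T.charpoly_range h.f h.g h.gg (by
    rintro l _ ⟨y, rfl⟩
    rw [← Module.End.mul_apply, h.fg, Module.End.mul_apply]
    exact ⟨_, rfl⟩)
  obtain ⟨hq, hhq⟩ := exists_quasi h.T h.n h.y (fun l x => (h.sl l).ker_f x)
    (fun l x => (h.sl l).ker_N x)
  obtain ⟨B, hB⟩ := charpoly_kerT h.T h.f h.n h.g hq q h.gg h.fg h.ng h.nf hhq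
  refine ⟨A, B, fun l => ⟨?_, ?_⟩⟩
  · have := hA l
    rw [h.hf, h.rg] at this
    exact this
  · have := hB l
    rw [h.hf, h.rg, h.hn] at this
    exact this

theorem range_tmap {F : Type v} [Field F] {V V' : Type w} [AddCommGroup V] [Module F V]
    [AddCommGroup V'] [Module F V'] (a : Module.End F V) (b : Module.End F V') :
    LinearMap.range (TensorProduct.map a b) = LinearMap.range
      (TensorProduct.map (LinearMap.range a).subtype (LinearMap.range b).subtype) := by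
  have h : TensorProduct.map a b =
      TensorProduct.map (LinearMap.range a).subtype (LinearMap.range b).subtype ∘ₗ
        TensorProduct.map a.rangeRestrict b.rangeRestrict := by
    rw [← TensorProduct.map_comp]
    rfl
  rw [h, LinearMap.range_comp_of_range_eq_top]
  rw [LinearMap.range_eq_top]
  exact TensorProduct.map_surjective a.surjective_rangeRestrict b.surjective_rangeRestrict

def tensor {S T : Sys.{v, w} K} {q : ℚ} (h : Nice.{uA} S q) (h' : Nice.{uA} T q) :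
    Nice.{uA} (S.tensor T) q where
  A := h.A ⊗[ℚ] h'.A
  T := h.T.tensor h'.T
  f := h.f ⊗ₜ h'.f
  n := h.n ⊗ₜ 1 + 1 ⊗ₜ h'.n
  y := h.y ⊗ₜ 1 + 1 ⊗ₜ h'.y
  g := h.g ⊗ₜ h'.g
  s l j := ∑ a ∈ h.P, TensorProduct.map (h.s l a) (h'.s l (j - a))
  P := Finset.image₂ (· + ·) h.P h'.P
  hf l := by
    have h1 := TS.tensor_tmul h.T h'.T l h.f h'.f
    rw [h.hf, h'.hf] at h1
    exact h1
  hn l := by
    have h1 := tens_sum h.T h'.T l h.n h'.n
    rw [h.hn, h'.hn] at h1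
    exact h1
  sl l := by
    have h1 := (h.sl l).tensor30 (h'.sl l)
    rw [← tens_sum, ← tens_sum] at h1
    exact h1
  gg l := tens_gg h.T h'.T l (h.gg l) (h'.gg l)
  rg l := by
    have h1 := congrArg LinearMap.range (TS.tensor_tmul h.T h'.T l h.g h'.g)
    rw [range_tmap, h.rg, h'.rg] at h1
    exact h1
  fg l := tens_fg h.T h'.T l (h.fg l) (h'.fg l)
  ng l := tens_ng h.T h'.T l (h.ng l) (h'.ng l)
  nf l := tens_nf h.T h'.T l (h.nf l) (h'.nf l)

end Nice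

end Pool.Agent.H62S
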