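import Pool.Agent.W_MP_a3c811_h79.Mix.Tr
import Pool.Agent.W_a3c811_h30x.Nice

/-! The realisations of motives computed by the strata are nice. -/

noncomputable section

set_option linter.unusedSectionVars false

namespace Pool.Agent.H62S

open Module Polynomial Pool.Agent.WeilH_h6 Pool.Agent.WeilH_h6.VarClass Pool.Agent.H62D
  Pool.Agent.H62A Pool.Agent.H79L Pool.Agent.H62X

universe u v w

variable {k : Type u} [Field k] {𝒱 : VarClass k} {I : Type} {K : I → Type v} [∀ l, Field (K l)]
  [∀ l, CharZero (K l)] {W : ∀ l, Weil.{u, v, w} 𝒱 (K l)}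

/-- The system of a realisation. -/
def realSys {C : MComplex W} (R : Realisation C) (w : ℤ) : Sys.{v, w} K where
  V := R.V
  acg := R.acg
  mod := R.mod
  finite := R.finite
  φ := R.φ
  ν := R.ν
  U l := R.deg l w

theorem nice_real {C : MComplex W} {T : Lefschetz C} {hW : Compatible W} {p q : ℚ[X]}
    [Nonempty I] (hK : ∀ a n, KunnethMotivic W (C.Y a) n)
    (F : Fitting (T.lapA hW) (aeval (T.lapA hW) p) (aeval (T.lapA hW) q))
    (h0 : ∀ l, (C.d l : Module.End (K l) (Tot (W l) C.Y)) * piv T hW p l = 0)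
    (R : Realisation C) (hR : T.Compat R) (w : ℤ) : Nonempty (Nice.{w, v, w} (realSys R w) R.q) := by
  classical
  have hh := quasi_inv F h0
  choose θ hθ using fun l => exists_desc_f F h0 hR l
  obtain ⟨y, hy⟩ := exists_elem R hW hK (T.d3A hW * aeval (T.lapA hW) q) hh
    (T.fA hW * aeval (T.lapA hW) p) θ hθ
  have hs := fun l => sl_real F hR l (hθ l)
  exact ⟨{
    A := (mkRet R hW hK (T.d3A hW * aeval (T.lapA hW) q) hh).sub
    T := T2 R hW hK (T.d3A hW * aeval (T.lapA hW) q) hh
    f := (mkStage R hW hK (T.d3A hW * aeval (T.lapA hW) q) hh).f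
    n := (mkStage R hW hK (T.d3A hW * aeval (T.lapA hW) q) hh).n
    y := y
    g := (mkStage R hW hK (T.d3A hW * aeval (T.lapA hW) q) hh).g w
    s := fun l => R.ppos l
    P := Finset.univ.image C.pos
    hf := fun l => stage_f R hW hK _ hh l
    hn := fun l => stage_n R hW hK _ hh l
    sl := fun l => by
      have h1 := hs l
      rw [← hy l, ← stage_n R hW hK (T.d3A hW * aeval (T.lapA hW) q) hh l] at h1
      exact h1
    gg := fun l => (mkStage R hW hK (T.d3A hW * aeval (T.lapA hW) q) hh).g_idem l w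
    rg := fun l => range_g R hW hK _ hh l w
    fg := fun l => (mkStage R hW hK (T.d3A hW * aeval (T.lapA hW) q) hh).fg l w
    ng := fun l => (mkStage R hW hK (T.d3A hW * aeval (T.lapA hW) q) hh).ng l w
    nf := fun l => (mkStage R hW hK (T.d3A hW * aeval (T.lapA hW) q) hh).nf l }⟩

namespace Strata

variable {X : Strata W}

theorem nice_of_zero (hW : Compatible W) (X : Strata W) (hb : ∀ l l', X.betti l = X.betti l')
    (l0 : I)
    (hz : ∀ (p q : ℚ[X]) (_ : Fitting ((X.toLefschetz hW).lapA hW)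
      (aeval ((X.toLefschetz hW).lapA hW) p) (aeval ((X.toLefschetz hW).lapA hW) q)),
        (X.complex.d l0 : Module.End (K l0) (Tot (W l0) X.EY)) *
          MA.val (aeval ((X.toLefschetz hW).lapA hW) p) l0 = 0) (M : X.Motive) (w : ℤ) :
    Nonempty (Nice.{w, v, w} (M.sys w) M.q) := by
  have hI : Nonempty I := ⟨l0⟩
  have hK := (X.toLefschetz hW).kunneth hW
  obtain ⟨χ, hχ⟩ := (X.toLefschetz hW).exists_char hW hK
  obtain ⟨P, Q, F⟩ := hχ.exists_fitting hW
  have hb0 : X.complex.betti l0 = χ.rootMultiplicity 0 := eq_of_zero hχ F (hz P Q F)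
  have h0 := fun l' => zero_of_eq hχ F ((hb l' l0).trans hb0)
  have hN : H62A.IsChain X.complex 2 X.eN := ⟨X.motivic_eN hW, X.eN_bidegree,
    fun l x => LinearMap.congr_fun (X.eN_ed l) x⟩
  have hR : (X.toLefschetz hW).Compat (M.toReal hN) := ⟨rfl, M.com_mod⟩
  exact nice_real hK F h0 (M.toReal hN) hR w

end Strata

end Pool.Agent.H62S
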