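import Pool.Agent.W_MP_a3c811_h79.MF.TrS
import Pool.Agent.W_a3c811_h30x.Base

/-! Tensor products of realisations of motives: the theorem. -/

noncomputable section

set_option linter.unusedSectionVars false

namespace Pool.Agent.H62S

open Module Polynomial Pool.Agent.WeilH_h6 Pool.Agent.WeilH_h6.VarClass Pool.Agent.H62D
  Pool.Agent.H62A Pool.Agent.H79L Pool.Agent.H62X

universe u v w

variable {k : Type u} [Field k] {𝒱 : VarClass k} {I : Type} {K : I → Type v} [∀ l, Field (K l)]
  [∀ l, CharZero (K l)] {W : ∀ l, Weil.{u, v, w} 𝒱 (K l)}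

namespace Strata

theorem nice_T12 (hW : Compatible W) (X : Strata W) (hb : ∀ l l', X.betti l = X.betti l')
    (l0 : I) (hL : X.HardLefschetz l0) (i0 : ℕ) (hN : ∀ i : ℕ, i0 ≤ i → X.MonoAt l0 X.n i)
    {BY : Subring (Module.End (K l0) (Tot (W l0) X.Y))} (hY : X.YRing l0 BY)
    (hG : ∀ i j, 1 ≤ i → i + j ≤ X.n → (j = 0 → i < i0) →
      Gd (K := K l0) (E := Tot (W l0) X.EY) (X.eN l0) (X.eNd l0) (X.eL l0) (X.eLam l0) (X.ed l0)
        X.n (posProj (W l0) X.EY X.epos) (degProj (W l0) X.EY X.epos X.etw) (X.eS l0)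
        (X.bring l0 BY hY.pos) i j) (M : X.Motive) (w : ℤ) :
    Nonempty (Nice.{w, v, w} (M.sys w) M.q) := by
  classical
  refine nice_of_zero hW X hb l0 (fun P Q F => ?_) M w
  obtain ⟨D, hP⟩ := hY.pol hW
  refine thm12 hP (fun r u hu => hY.rat_mem r hu) (fun p m => ei_lef (hL p m)) i0
    (fun m hm => ei_mono (w := 0) (by rw [zero_add]; exact hN m hm)) (fun i j hi hj => ?_)
    (har_strata hY hW F)
  by_cases hij : i + j ≤ X.n
  · exact hG i j hi hij hj
  · exact gd_gt hY hW (not_le.1 hij)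

end Strata

/-- The hypotheses on the double locus, in one theory: the Betti number of the `E_2`-term does not
depend on `l`, and for some `l0` the hard Lefschetz theorem holds for the `E_2`-term, for some `i0`
the map `N ^ i` of weight monodromy is bijective in the middle degree `n` for `i ≥ i0`, and for a set
`G` of endomorphisms of the cohomology of the strata which respect levels and degrees and commute with
the restrictions, the Gysin maps and `L` the primitive parts `(i, j)` with `i, j ≥ 1` and the parts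
`(i, 0)` with `1 ≤ i < i0` are good. -/
def Strata.OneTheory (X : Strata W) : Prop :=
  (∀ l l', X.dimE2 l = X.dimE2 l') ∧ ∃ l0 : I, X.HardLefschetz l0 ∧
    ∃ i0 : ℕ, (∀ i : ℕ, i0 ≤ i → X.MonoAt l0 X.n i) ∧
      ∃ G : Set (TEnd (W l0) X.Y), X.CompatibleWith l0 G ∧
        ∀ i j, 1 ≤ i → i + j ≤ X.n → (j = 0 → i < i0) → X.Good l0 G i j

theorem tens_nice [Nonempty I] {P : Sys.{v, w} K → Prop} {q : ℚ}
    (hP : ∀ S, P S → Nonempty (Nice.{w, v, w} S q)) (S : Sys.{v, w} K) (hS : Sys.Tens P S) :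
    Nonempty (Nice.{w, v, w} S q) := by
  induction hS with
  | of S h => exact hP S h
  | tensor S T _ _ h1 h2 =>
    obtain ⟨h1⟩ := h1
    obtain ⟨h2⟩ := h2
    exact ⟨h1.tensor h2⟩

/-- Tensor products of realisations of motives over strata with `OneTheory`. -/
theorem tens_indep (hW : Compatible W) (q : ℚ) (S : Sys.{v, w} K)
    (hS : Sys.Tens (fun T => ∃ (X : Strata W) (M : X.Motive) (w : ℤ), X.OneTheory ∧ M.q = q ∧
      T = M.sys w) S) : S.Independent := by
  classical
  rcases isEmpty_or_nonempty I with hI | hI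
  · exact ⟨1, 1, fun l => hI.elim l⟩
  · obtain ⟨h⟩ := tens_nice (q := q) (fun T hT => by
      obtain ⟨X, M, w, ⟨hb, l0, hL, i0, hN, G, hG, hE⟩, rfl, rfl⟩ := hT
      exact Strata.nice_T12 hW X hb l0 hL i0 hN (Strata.yring_sring hW hG.com)
        (fun i j h1 hij h0 => Strata.gd_goodS hW hG (hE i j h1 hij h0)) M w) S hS
    exact h.indep

end Pool.Agent.H62S
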