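import Pool.Agent.W_a3c811_h30x.Nice

/-! The kernels of the powers of the monodromy operator. -/

noncomputable section

namespace Pool.Agent.H79L

open Module

universe v w

section pair

variable {K : Type v} [Field K] {E : Type w} [AddCommGroup E] [Module K E]
  {N f : Module.End K E} {c : K}

theorem H_pow30 (hc : br N f * N = N * br N f + c • N) (m : ℕ) (x : E) :
    br N f ((N ^ m) x) = (N ^ m) (br N f x + ((m : K) * c) • x) := by
  induction m with
  | zero => simp
  | succ m ih =>
    have h1 := LinearMap.congr_fun hc ((N ^ m) x)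
    simp only [Module.End.mul_apply, LinearMap.add_apply, LinearMap.smul_apply] at h1
    rw [pow_succ', Module.End.mul_apply, h1, ih, Module.End.mul_apply, map_add, map_add, map_add,
      map_add, map_smul, map_smul, map_smul, map_smul, add_assoc, ← add_smul]
    congr 2
    push_cast
    ring

theorem f_pow30 (hc : br N f * N = N * br N f + c • N) (j : ℕ) (x : E) :
    ∃ z, f ((N ^ (j + 1)) x) = (N ^ j) z := by
  induction j with
  | zero => exact ⟨f (N x), by simp⟩
  | succ j ih =>
    obtain ⟨z, hz⟩ := ih
    refine ⟨z - (br N f x + (((j + 1 : ℕ) : K) * c) • x), ?_⟩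
    have h1 : f (N ((N ^ (j + 1)) x)) = N (f ((N ^ (j + 1)) x)) - br N f ((N ^ (j + 1)) x) := by
      unfold br
      simp
    rw [pow_succ' N (j + 1), Module.End.mul_apply, h1, hz, H_pow30 hc, map_sub, pow_succ' N j,
      Module.End.mul_apply, Module.End.mul_apply]

theorem pow_ker30 (hc : br N f * N = N * br N f + c • N) (kf : ∀ x, f (N x) = 0 → N x = 0)
    (j : ℕ) : ∀ u : E, (f ^ j) ((N ^ j) u) = 0 → (N ^ j) u = 0 := by
  induction j with
  | zero => intro u h; simpa using h
  | succ j ih =>
    intro u h
    obtain ⟨z, hz⟩ := f_pow30 hc j u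
    rw [pow_succ f j, Module.End.mul_apply, hz] at h
    have h1 := ih z h
    rw [h1, pow_succ' N j, Module.End.mul_apply] at hz
    rw [pow_succ' N j, Module.End.mul_apply]
    exact kf _ hz

end pair

section sl

variable {K : Type v} [Field K] {E : Type w} [AddCommGroup E] [Module K E]
  {N f : Module.End K E} {s : ℤ → Module.End K E} {P : Finset ℤ}

theorem Sl.ext30 (h : Sl N f s P) {a b : Module.End K E} (hab : ∀ p, a * s p = b * s p) :
    a = b := by
  have h1 : a * ∑ p ∈ P, s p = b * ∑ p ∈ P, s p := by
    rw [Finset.mul_sum, Finset.mul_sum]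
    exact Finset.sum_congr rfl fun p _ => hab p
  rwa [h.sum, mul_one, mul_one] at h1

theorem Sl.hN30 (h : Sl N f s P) : br N f * N = N * br N f + (2 : K) • N := by
  refine h.ext30 fun p => ?_
  rw [mul_assoc, h.Ns, ← mul_assoc, h.h, add_mul, mul_assoc, h.h, smul_mul_assoc, ← h.Ns,
    mul_smul_comm, smul_mul_assoc, ← add_smul]
  push_cast
  rfl

theorem Sl.hf30 (h : Sl N f s P) : br f N * f = f * br f N + (2 : K) • f := by
  have h0 : br f N = -br N f := by unfold br; abel
  refine h.ext30 fun p => ?_
  rw [h0, mul_assoc, h.fs, neg_mul, ← mul_assoc, h.h, add_mul, mul_assoc, neg_mul, h.h,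
    smul_mul_assoc, ← h.fs, mul_neg, mul_smul_comm, smul_mul_assoc]
  push_cast
  module

end sl

end Pool.Agent.H79L
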