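import Pool.Agent.W_MP_a3c811_h79.MF.StReal

/-! Definition for the statement: the kernels of all powers of the monodromy operator. -/

noncomputable section

namespace Pool.Agent.H62S

open Polynomial Pool.Agent.WeilH_h6 Pool.Agent.WeilH_h6.VarClass Pool.Agent.H62A

universe u v w

variable {k : Type u} [Field k] {𝒱 : VarClass k} {I : Type} {K : I → Type v} [∀ l, Field (K l)]
  {W : ∀ l, Weil.{u, v, w} 𝒱 (K l)}

/-- For all `w`, the characteristic polynomials of Frobenius on `V^w` and on the kernels in `V^w` of
all powers of the monodromy operator are rational and do not depend on `l`. -/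
def Strata.Motive.AllKernels {X : Strata W} (M : X.Motive) [∀ l, CharZero (K l)] : Prop :=
  ∀ w : ℤ, ∃ (A : ℚ[X]) (B : ℕ → ℚ[X]), ∀ l, CharpolyOn (M.φ l) (M.deg l w) A ∧
    ∀ j, CharpolyOn (M.φ l) (kerIn (M.ν l ^ j) (M.deg l w)) (B j)

end Pool.Agent.H62S
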