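import Pool.Agent.W_a3c811_h30x.Fin
import Pool.Agent.W_a3c811_h30x.Pow30
import Pool.Agent.W_a3c811_h30x.PowLaw

/-! The kernels of all powers of the monodromy operator: the theorem. -/

noncomputable section

namespace Pool.Agent.H62S

open Module Polynomial Pool.Agent.WeilH_h6 Pool.Agent.WeilH_h6.VarClass Pool.Agent.H62D
  Pool.Agent.H62A Pool.Agent.H79L Pool.Agent.H62X

universe uA u v w

variable {k : Type u} [Field k] {𝒱 : VarClass k} {I : Type} {K : I → Type v} [∀ l, Field (K l)]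
  [∀ l, CharZero (K l)] {W : ∀ l, Weil.{u, v, w} 𝒱 (K l)}

theorem Nice.pow_law [Nonempty I] {S : Sys.{v, w} K} {q : ℚ} (h : Nice.{uA} S q) :
    ∃ (A : ℚ[X]) (B : ℕ → ℚ[X]), ∀ l, CharpolyOn (S.φ l) (S.U l) A ∧
      ∀ j, CharpolyOn (S.φ l) (kerIn (S.ν l ^ j) (S.U l)) (B j) := by
  obtain ⟨A, hA⟩ := h.T.charpoly_range h.f h.g h.gg (by
    rintro l _ ⟨y, rfl⟩
    rw [← Module.End.mul_apply, h.fg, Module.End.mul_apply]
    exact ⟨_, rfl⟩)
  have key : ∀ j : ℕ, ∃ B : ℚ[X], ∀ l,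
      CharpolyOn (S.φ l) (kerIn (S.ν l ^ j) (S.U l)) B := by
    intro j
    obtain ⟨hq, hhq⟩ := exists_quasi h.T (h.n ^ j) (h.y ^ j)
      (fun l x hx => by
        rw [map_pow, map_pow] at hx
        rw [map_pow]
        exact pow_ker30 (h.sl l).hN30 (fun x => (h.sl l).ker_f x) j x hx)
      (fun l x hx => by
        rw [map_pow, map_pow] at hx
        rw [map_pow]
        exact pow_ker30 (h.sl l).hf30 (fun x => (h.sl l).ker_N x) j x hx)
    have ng : ∀ l, h.T.ρ l (h.n ^ j) * h.T.ρ l h.g = h.T.ρ l h.g * h.T.ρ l (h.n ^ j) := by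
      intro l
      rw [map_pow]
      exact Commute.pow_left (h.ng l) j
    have nf : ∀ l, h.T.ρ l (h.n ^ j) * h.T.ρ l h.f =
        ((q ^ j : ℚ) : K l) • (h.T.ρ l h.f * h.T.ρ l (h.n ^ j)) := by
      intro l
      rw [map_pow]
      clear hhq hq ng
      induction j with
      | zero => simp
      | succ j ih =>
        rw [pow_succ (h.T.ρ l h.n) j, mul_assoc, h.nf, mul_smul_comm, ← mul_assoc, ih,
          smul_mul_assoc, mul_assoc, smul_smul]
        congr 1
        push_cast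
        ring
    obtain ⟨B, hB⟩ := charpoly_kerT h.T h.f (h.n ^ j) h.g hq (q ^ j) h.gg h.fg ng nf hhq
    refine ⟨B, fun l => ?_⟩
    have := hB l
    rw [h.hf, h.rg, map_pow, h.hn] at this
    exact this
  choose B hB using key
  refine ⟨A, B, fun l => ⟨?_, fun j => hB j l⟩⟩
  have := hA l
  rw [h.hf, h.rg] at this
  exact this

theorem Strata.pow_T12 (hW : Compatible W) (X : Strata W) (hb : ∀ l l', X.dimE2 l = X.dimE2 l')
    (l0 : I) (hL : X.HardLefschetz l0) (i0 : ℕ) (hN : ∀ i : ℕ, i0 ≤ i → X.MonoAt l0 X.n i)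
    (G : Set (TEnd (W l0) X.Y)) (hG : X.CompatibleWith l0 G)
    (hE : ∀ i j, 1 ≤ i → i + j ≤ X.n → (j = 0 → i < i0) → X.Good l0 G i j) (M : X.Motive) :
    (∀ l, M.WeightMonodromy l) ∧ M.AllKernels := by
  classical
  haveI : Nonempty I := ⟨l0⟩
  refine ⟨(Strata.all_T12 hW X hb l0 hL i0 hN (Strata.yring_sring hW hG.com)
    (fun i j h1 hij h0 => Strata.gd_goodS hW hG (hE i j h1 hij h0)) M).1, fun w => ?_⟩
  obtain ⟨h⟩ := Strata.nice_T12 hW X hb l0 hL i0 hN (Strata.yring_sring hW hG.com)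
    (fun i j h1 hij h0 => Strata.gd_goodS hW hG (hE i j h1 hij h0)) M w
  exact h.pow_law

end Pool.Agent.H62S
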